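import Mathlib

set_option autoImplicit false

open Finset

namespace Pool.Agent.P.MP_02a1b3_co

/-- largest product of `n` naturals with sum `L` -/
def UU (n L : ℕ) : ℕ := (L / n + 1) ^ (L % n) * (L / n) ^ (n - L % n)

lemma tangent (q : ℕ) (hq : 1 ≤ q) (m : ℕ) :
    (m : ℝ) ≤ q * (((q : ℝ) + 1) / q) ^ m / (((q : ℝ) + 1) / q) ^ q := by
  have hq' : (0 : ℝ) < q := by exact_mod_cast hq
  set t : ℝ := ((q : ℝ) + 1) / q with ht
  have t0 : 0 < t := by positivity
  have tq : t * q = q + 1 := by rw [ht]; field_simp
  rw [le_div_iff₀ (by positivity)]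
  rcases le_total q m with h | h
  · induction m, h using Nat.le_induction with
    | base => exact le_refl _
    | succ m hm ih =>
      have hm' : (q : ℝ) ≤ m := by exact_mod_cast hm
      have : ((m : ℝ) + 1) ≤ t * m := by
        have : ((m : ℝ) + 1) * q ≤ t * m * q := by nlinarith
        exact le_of_mul_le_mul_right this hq'
      push_cast
      rw [pow_succ]
      have p : 0 < t ^ q := by positivity
      nlinarith
  · induction h using Nat.decreasingInduction with
    | self => exact le_refl _
    | of_succ m hm ih =>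
      have hm' : (m : ℝ) ≤ q := by exact_mod_cast hm.le
      have : t * m ≤ ((m : ℝ) + 1) := by
        have : t * m * q ≤ ((m : ℝ) + 1) * q := by nlinarith
        exact le_of_mul_le_mul_right this hq'
      push_cast at ih
      rw [pow_succ] at ih
      have p : 0 < t ^ q := by positivity
      have : t * (m * t ^ q) ≤ t * (q * t ^ m) := by nlinarith
      exact le_of_mul_le_mul_left this t0

lemma prod_le_UU {n : ℕ} (hn : 1 ≤ n) (c : Fin n → ℕ) {L : ℕ} (h : ∑ a, c a ≤ L) :
    ∏ a, c a ≤ UU n L := by
  by_cases hq : L / n = 0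
  · have hL : L < n := by
      rcases Nat.div_eq_zero_iff.1 hq with h | h <;> omega
    have : ∃ a, c a = 0 := by
      by_contra hc
      push Not at hc
      have : ∑ _a : Fin n, 1 ≤ ∑ a, c a :=
        Finset.sum_le_sum (fun a _ => Nat.one_le_iff_ne_zero.2 (hc a))
      simp at this
      omega
    obtain ⟨a, ha⟩ := this
    rw [Finset.prod_eq_zero (Finset.mem_univ a) ha]
    exact Nat.zero_le _
  · set q := L / n with hqd
    set r := L % n with hrd
    have hq1 : 1 ≤ q := Nat.one_le_iff_ne_zero.2 hq
    have hq' : (0 : ℝ) < q := by exact_mod_cast hq1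
    have hr : r < n := Nat.mod_lt _ (by omega)
    have hL : L = n * q + r := (Nat.div_add_mod L n).symm
    set t : ℝ := ((q : ℝ) + 1) / q with ht
    have t1 : 1 ≤ t := by
      rw [ht, le_div_iff₀ hq']
      linarith
    have h1 : ((∏ a, c a : ℕ) : ℝ) ≤ ∏ a, (q * t ^ c a / t ^ q) := by
      push_cast
      exact Finset.prod_le_prod (fun a _ => by positivity) (fun a _ => tangent q hq1 (c a))
    rw [Finset.prod_div_distrib, Finset.prod_mul_distrib, Finset.prod_pow_eq_pow_sum] at h1
    simp only [Finset.prod_const, Finset.card_univ, Fintype.card_fin] at h1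
    have h2 : t ^ (∑ a, c a) ≤ t ^ L := pow_le_pow_right₀ t1 h
    have h3 : (q : ℝ) ^ n * t ^ L / (t ^ q) ^ n = ((UU n L : ℕ) : ℝ) := by
      unfold UU
      rw [← hqd, ← hrd, hL, pow_add, mul_comm n q, pow_mul]
      push_cast
      have : (q : ℝ) ^ n = (q : ℝ) ^ r * (q : ℝ) ^ (n - r) := by
        rw [← pow_add]
        congr 1
        omega
      rw [this, ht, div_pow (_ + 1 : ℝ) q r]
      field_simp
    have h4 : ((∏ a, c a : ℕ) : ℝ) ≤ ((UU n L : ℕ) : ℝ) := by
      rw [← h3]
      refine h1.trans ?_
      gcongr
    exact_mod_cast h4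

lemma perm_eq_of_order {n : ℕ} (π σ : Equiv.Perm (Fin n))
    (h : ∀ a b, π.symm a < π.symm b ↔ σ.symm a < σ.symm b) : π = σ := by
  have hm : StrictMono (fun i => σ.symm (π i)) := by
    intro i j hij
    apply (h _ _).1
    simpa using hij
  have := (hm.orderIsoOfSurjective _ (σ.symm.surjective.comp π.surjective))
  have e : ∀ i, σ.symm (π i) = i := by
    intro i
    have h1 := StrictMono.id_le hm i
    have h2 := StrictMono.le_id hm i
    exact le_antisymm h2 h1
  ext i
  have := e i
  rw [Equiv.symm_apply_eq] at this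
  rw [this]

theorem upper {n : ℕ} (hn : 1 ≤ n) (w : List (Fin n)) {L : ℕ} (hL : w.length ≤ L) :
    (univ.filter fun π : Equiv.Perm (Fin n) => (List.ofFn π).Sublist w).card ≤ UU n L := by
  classical
  have key : ∀ π : Equiv.Perm (Fin n), (List.ofFn π).Sublist w →
      ∃ s : Fin n → Fin w.length, (∀ a, w.get (s a) = a) ∧
        ∀ a b, s a < s b ↔ π.symm a < π.symm b := by
    intro π hπ
    obtain ⟨f, hf⟩ := List.sublist_iff_exists_fin_orderEmbedding_get_eq.1 hπ
    refine ⟨fun a => f (Fin.cast (by simp) (π.symm a)), fun a => ?_, fun a b => ?_⟩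
    · rw [← hf]
      simp
    · rw [f.lt_iff_lt]
      simp
  rcases isEmpty_or_nonempty (Fin n → Fin w.length) with hem | hne
  · rw [Finset.filter_eq_empty_iff.2 (fun π _ hπ => (key π hπ).elim fun s _ => hem.elim s)]
    exact Nat.zero_le _
  choose! s hs using key
  have h1 : (univ.filter fun π : Equiv.Perm (Fin n) => (List.ofFn π).Sublist w).card
      ≤ (Fintype.piFinset fun a : Fin n => univ.filter fun i : Fin w.length => w.get i = a).card := by
    apply Finset.card_le_card_of_injOn s
    · intro π hπ
      have := (hs π (Finset.mem_filter.1 hπ).2).1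
      simp only [Finset.mem_coe, Fintype.mem_piFinset, Finset.mem_filter,
        Finset.mem_univ, true_and]
      exact this
    · intro π hπ σ hσ e
      have a1 := (hs π (Finset.mem_filter.1 hπ).2).2
      have a2 := (hs σ (Finset.mem_filter.1 hσ).2).2
      apply perm_eq_of_order
      intro a b
      rw [← a1, ← a2, e]
  rw [Fintype.card_piFinset] at h1
  refine h1.trans (prod_le_UU hn _ ?_)
  rw [← Finset.card_eq_sum_card_fiberwise (f := fun i : Fin w.length => w.get i)
    (s := univ) (t := univ) (by simp)]
  simpa using hL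

/-- selections of one position below `L` in each residue class -/
def Sel (n L : ℕ) : Finset (Fin n → ℕ) :=
  Fintype.piFinset fun a : Fin n => (range L).filter fun i => i % n = a.val

lemma mem_Sel {n L : ℕ} {p : Fin n → ℕ} : p ∈ Sel n L ↔ ∀ a, p a < L ∧ p a % n = a.val := by
  simp [Sel]

lemma card_Sel {n : ℕ} (hn : 1 ≤ n) (L : ℕ) : (Sel n L).card = UU n L := by
  unfold Sel UU
  rw [Fintype.card_piFinset]
  have hr : L % n < n := Nat.mod_lt _ (by omega)
  have e : ∀ a : Fin n, ((range L).filter fun i => i % n = a.val).card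
      = if a.val < L % n then L / n + 1 else L / n := by
    intro a
    have := Nat.count_modEq_card L (by omega : 0 < n) a.val
    rw [Nat.count_eq_card_filter_range, Nat.mod_eq_of_lt a.isLt] at this
    have e2 : ((range L).filter fun i => i % n = a.val) = (range L).filter fun i => i ≡ a.val [MOD n] := by
      apply Finset.filter_congr
      intro i _
      rw [Nat.ModEq, Nat.mod_eq_of_lt a.isLt]
    rw [e2, this]
    split_ifs <;> rfl
  simp only [e]
  rw [Fin.prod_univ_eq_prod_range (fun a => if a < L % n then L / n + 1 else L / n) n,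
    ← Finset.prod_range_mul_prod_Ico _ hr.le]
  congr 1
  · rw [Finset.prod_congr rfl (fun i hi => if_pos (Finset.mem_range.1 hi))]
    simp
  · rw [Finset.prod_congr rfl (fun i hi => if_neg (not_lt.2 (Finset.mem_Ico.1 hi).1))]
    simp

/-- the selection is not leftmost at the letter `a` -/
def Bad (n : ℕ) (p : Fin n → ℕ) (a : Fin n) : Prop :=
  n ≤ p a ∧ ∀ b, p b < p a → p b + n ≤ p a

lemma mod_gap {n x y : ℕ} (h : x % n = y % n) (hxy : x < y) : x + n ≤ y := by
  have h1 : n ∣ y - x := (Nat.modEq_iff_dvd' hxy.le).1 h
  have := Nat.le_of_dvd (by omega) h1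
  omega

lemma card_bad {n : ℕ} (hn : 1 ≤ n) (L : ℕ) (a : Fin n) [DecidablePred fun p => Bad n p a] :
    ((Sel n L).filter fun p => Bad n p a).card ≤ UU n (L - n) := by
  rw [← card_Sel hn]
  apply Finset.card_le_card_of_injOn (fun p b => if p b < p a then p b else p b - n)
  · intro p hp
    obtain ⟨h1, h2, h3⟩ := Finset.mem_filter.1 hp
    rw [mem_Sel] at h1
    rw [Finset.mem_coe, mem_Sel]
    intro b
    have hb := h1 b
    have ha := h1 a
    by_cases h : p b < p a
    · simp only [if_pos h]
      have := h3 b h
      exact ⟨by omega, hb.2⟩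
    · simp only [if_neg h]
      refine ⟨by omega, ?_⟩
      rw [← hb.2, ← Nat.mod_eq_sub_mod (by omega)]
  · intro p hp p' hp' e
    obtain ⟨h1, h2, h3⟩ := Finset.mem_filter.1 hp
    obtain ⟨h1', h2', h3'⟩ := Finset.mem_filter.1 hp'
    rw [mem_Sel] at h1 h1'
    have ea := congrFun e a
    simp only [lt_irrefl, if_false] at ea
    have ea' : p a = p' a := by omega
    funext b
    have eb := congrFun e b
    simp only at eb
    by_cases hb : b = a
    · rw [hb, ea']
    have n1 : p b % n ≠ p a % n := by
      rw [(h1 b).2, (h1 a).2]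
      exact fun h => hb (Fin.ext h)
    have n2 : p' b % n ≠ p' a % n := by
      rw [(h1' b).2, (h1' a).2]
      exact fun h => hb (Fin.ext h)
    by_cases c1 : p b < p a <;> by_cases c2 : p' b < p' a
    · rwa [if_pos c1, if_pos c2] at eb
    · rw [if_pos c1, if_neg c2] at eb
      have := h3 b c1
      have : p' b = p' a := by omega
      exact absurd (by rw [this]) n2
    · rw [if_neg c1, if_pos c2] at eb
      have := h3' b c2
      have : p b = p a := by omega
      exact absurd (by rw [this]) n1
    · rw [if_neg c1, if_neg c2] at eb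
      omega

theorem lower {n : ℕ} (hn : 1 ≤ n) (L : ℕ) : ∃ w : List (Fin n), w.length = L ∧
    UU n L ≤ (univ.filter fun π : Equiv.Perm (Fin n) => (List.ofFn π).Sublist w).card
      + n * UU n (L - n) := by
  classical
  let w : List (Fin n) := List.ofFn fun i : Fin L => ⟨i.val % n, Nat.mod_lt _ (by omega)⟩
  refine ⟨w, by simp [w], ?_⟩
  have sm : ∀ p ∈ Sel n L, StrictMono (p ∘ Tuple.sort p) := by
    intro p hp
    rw [mem_Sel] at hp
    apply (Tuple.monotone_sort p).strictMono_of_injective
    apply Function.Injective.comp _ (Tuple.sort p).injective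
    intro a b h
    apply Fin.ext
    rw [← (hp a).2, ← (hp b).2, h]
  have ord : ∀ p ∈ Sel n L, ∀ a b, p a < p b ↔ (Tuple.sort p).symm a < (Tuple.sort p).symm b := by
    intro p hp a b
    rw [← (sm p hp).lt_iff_lt]
    simp
  have h1 : ((Sel n L).filter fun p => ¬ ∃ a, Bad n p a).card
      ≤ (univ.filter fun π : Equiv.Perm (Fin n) => (List.ofFn π).Sublist w).card := by
    apply Finset.card_le_card_of_injOn Tuple.sort
    · intro p hp
      have hp1 := (Finset.mem_filter.1 hp).1
      have hp2 := mem_Sel.1 hp1
      simp only [Finset.coe_filter, Finset.mem_univ, true_and, Set.mem_ofPred_eq]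
      rw [List.sublist_iff_exists_fin_orderEmbedding_get_eq]
      refine ⟨OrderEmbedding.ofStrictMono (fun i => ⟨p (Tuple.sort p (Fin.cast (by simp) i)), by
        simpa [w] using (hp2 _).1⟩) ?_, fun i => ?_⟩
      · intro i j hij
        exact sm p hp1 (show Fin.cast _ i < Fin.cast _ j from hij)
      · apply Fin.ext
        simp [w, (hp2 _).2]
        rfl
    · intro p hp p' hp' e
      obtain ⟨h1, h2⟩ := Finset.mem_filter.1 hp
      obtain ⟨h1', h2'⟩ := Finset.mem_filter.1 hp'
      have o : ∀ a b, p a < p b ↔ p' a < p' b := by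
        intro a b
        rw [ord p h1, ord p' h1', e]
      rw [mem_Sel] at h1 h1'
      by_contra hne
      have hex : (univ.filter fun a => p a ≠ p' a).Nonempty := by
        obtain ⟨a, ha⟩ := Function.ne_iff.1 hne
        exact ⟨a, by simpa using ha⟩
      obtain ⟨a, ha, hmin⟩ := Finset.exists_min_image _ p hex
      have ha' : p a ≠ p' a := (Finset.mem_filter.1 ha).2
      have same : ∀ b, p b < p a → p b = p' b := by
        intro b hb
        by_contra h
        have := hmin b (by simpa using h)
        omega
      have hm : p a % n = p' a % n := by rw [(h1 a).2, (h1' a).2]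
      rcases lt_or_gt_of_ne ha' with h | h
      · have g := mod_gap hm h
        refine h2' ⟨a, by omega, fun b hb => ?_⟩
        have hb' := (o b a).2 hb
        have := same b hb'
        omega
      · have g := mod_gap hm.symm h
        refine h2 ⟨a, by omega, fun b hb => ?_⟩
        have hb' := (o b a).1 hb
        have := same b hb
        omega
  have h2 : ((Sel n L).filter fun p => ∃ a, Bad n p a).card ≤ n * UU n (L - n) := by
    have : ((Sel n L).filter fun p => ∃ a, Bad n p a)
        = univ.biUnion fun a => (Sel n L).filter fun p => Bad n p a := by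
      ext p
      simp
    rw [this]
    refine Finset.card_biUnion_le.trans ?_
    refine (Finset.sum_le_sum (fun a _ => card_bad hn L a)).trans ?_
    simp
  have h3 := Finset.card_filter_add_card_filter_not (s := Sel n L) (fun p => ∃ a, Bad n p a)
  rw [card_Sel hn] at h3
  omega

end Pool.Agent.P.MP_02a1b3_co
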